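import Mathlib
import Pool.Agent.H482R3.EA.Stm

set_option autoImplicit false

namespace Pool.Agent.H75R6.EA

open Pool.Agent.H482R3.EA

/-! ### values of words -/

theorem c2_ev_append {S G : Type} [Group G] (f : S → G) (u v : W S) :
    ev f (u ++ v) = ev f u * ev f v := by
  simp [ev]

theorem c2_ev_inv {S G : Type} [Group G] (f : S → G) (u : W S) :
    ev f (inv u) = (ev f u)⁻¹ := by
  induction u with
  | nil => simp [ev, inv]
  | cons a u ih =>
    have h1 : inv (a :: u) = inv u ++ [(a.1, !a.2)] := by simp [inv]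
    have h2 : ev f (a :: u) = (if a.2 then f a.1 else (f a.1)⁻¹) * ev f u := by simp [ev]
    rw [h1, c2_ev_append, ih, h2, mul_inv_rev]
    congr 1
    rcases a with ⟨s, b⟩
    cases b <;> simp [ev]

/-- the power of a word -/
def rp {S : Type} (u : W S) (n : ℕ) : W S := (List.range n).flatMap fun _ => u

theorem c2_ev_rp {S G : Type} [Group G] (f : S → G) (u : W S) (n : ℕ) :
    ev f (rp u n) = ev f u ^ n := by
  induction n with
  | zero => simp [rp, ev]
  | succ n ih =>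
    have h1 : rp u (n + 1) = rp u n ++ u := by
      simp [rp, List.range_succ, List.flatMap_append]
    rw [h1, c2_ev_append, ih, pow_succ]

/-- the word of `P` -/
def wP (k : ℕ) : W ℕ := (List.range k).map fun r => (r, true)

theorem c2_wP {k : ℕ} (hX : S_XX) (hk : 0 < k) : evF k (wP k) = PP k := by
  have h3 := (hX k hk).2.2
  unfold evF ev wP PP
  rw [List.map_map, List.ofFn_eq_map, ← List.map_coe_finRange_eq_range, List.map_map]
  congr 1
  refine List.map_congr_left fun r _ => ?_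
  simp only [Function.comp_apply, if_true]
  rw [Nat.mod_eq_of_lt r.2]
  exact h3 r

/-- the word of `x_s` for `s = s.1 - s.2` -/
def bw (k : ℕ) (s : ℕ × ℕ) : W ℕ :=
  rp (wP k) s.2 ++ (rp (inv (wP k)) ((s.1 + (k - 1) * s.2) / k) ++
    ([(s.1 + (k - 1) * s.2, true)] ++ (rp (wP k) ((s.1 + (k - 1) * s.2) / k) ++
      rp (inv (wP k)) s.2)))

theorem c2_shift {k : ℕ} (hX : S_XX) (hk : 0 < k) (i : ℤ) (m : ℕ) :
    xx k (i + k * m) = (PP k)⁻¹ ^ m * xx k i * PP k ^ m := by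
  induction m with
  | zero => simp
  | succ m ih =>
    have h1 : i + (k:ℤ) * ((m + 1 : ℕ) : ℤ) = (i + k * m) + k := by push_cast; ring
    rw [h1, (hX k hk).1, ih, pow_succ', pow_succ (PP k)]
    simp only [mul_assoc]

theorem c2_bw {k : ℕ} (hX : S_XX) (hk : 0 < k) (s : ℕ × ℕ) :
    evF k (bw k s) = xx k ((s.1 : ℤ) - (s.2 : ℤ)) := by
  set t := s.1 + (k - 1) * s.2 with ht
  have hP := c2_wP hX hk
  unfold evF at hP
  have e1 : evF k (bw k s) = PP k ^ s.2 * ((PP k)⁻¹ ^ (t / k) *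
      (xx k ((t % k : ℕ) : ℤ) * (PP k ^ (t / k) * (PP k)⁻¹ ^ s.2))) := by
    unfold evF bw
    simp only [c2_ev_append, c2_ev_rp, c2_ev_inv, hP, ← ht]
    congr 3
    simp [ev]
  have e2 := c2_shift hX hk ((t % k : ℕ) : ℤ) (t / k)
  have e3 : ((t % k : ℕ) : ℤ) + (k : ℤ) * ((t / k : ℕ) : ℤ) = (t : ℤ) := by
    exact_mod_cast Nat.mod_add_div t k
  rw [e3] at e2
  have e4 := c2_shift hX hk ((s.1 : ℤ) - (s.2 : ℤ)) s.2
  have e5 : ((s.1 : ℤ) - (s.2 : ℤ)) + (k : ℤ) * (s.2 : ℤ) = (t : ℤ) := by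
    rw [ht]
    push_cast [Nat.cast_sub (show 1 ≤ k from hk)]
    ring
  rw [e5] at e4
  have e6 : evF k (bw k s) = PP k ^ s.2 * xx k (t : ℤ) * (PP k)⁻¹ ^ s.2 := by
    rw [e1, e2]
    simp only [mul_assoc]
  rw [e6, e4]
  simp [mul_assoc, inv_pow]

/-- the word of `x_s ^ a` -/
def xw (k : ℕ) (s a : ℕ × ℕ) : W ℕ := rp (bw k s) a.1 ++ rp (inv (bw k s)) a.2

theorem c2_xw {k : ℕ} (hX : S_XX) (hk : 0 < k) (s a : ℕ × ℕ) :
    evF k (xw k s a) = xx k ((s.1 : ℤ) - (s.2 : ℤ)) ^ ((a.1 : ℤ) - (a.2 : ℤ)) := by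
  have h := c2_bw hX hk s
  unfold evF at h
  unfold evF xw
  rw [c2_ev_append, c2_ev_rp, c2_ev_rp, c2_ev_inv, h, zpow_sub, zpow_natCast, zpow_natCast,
    inv_pow]

/-! ### computability -/

theorem c2_inv_prim {S : Type} [Primcodable S] : Primrec (inv : W S → W S) := by
  unfold inv
  refine Primrec.list_reverse.comp (Primrec.list_map Primrec.id ?_)
  exact (Primrec.pair (Primrec.fst.comp Primrec.snd)
    (Primrec.not.comp (Primrec.snd.comp Primrec.snd))).to₂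

theorem c2_rp_prim {S : Type} [Primcodable S] : Primrec₂ (rp : W S → ℕ → W S) := by
  unfold rp
  exact Primrec.list_flatMap (Primrec.list_range.comp Primrec.snd)
    (Primrec.fst.comp Primrec.fst).to₂

theorem c2_bw_prim (k : ℕ) : Primrec (bw k) := by
  have ht : Primrec fun s : ℕ × ℕ => s.1 + (k - 1) * s.2 :=
    Primrec.nat_add.comp Primrec.fst (Primrec.nat_mul.comp (Primrec.const (k - 1)) Primrec.snd)
  have hd : Primrec fun s : ℕ × ℕ => (s.1 + (k - 1) * s.2) / k :=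
    Primrec.nat_div.comp ht (Primrec.const k)
  have hc : ∀ u : W ℕ, Primrec fun _ : ℕ × ℕ => u := fun u => Primrec.const u
  unfold bw
  exact Primrec.list_append.comp (c2_rp_prim.comp (hc _) Primrec.snd)
    (Primrec.list_append.comp (c2_rp_prim.comp (hc _) hd)
      (Primrec.list_append.comp (Primrec.list_cons.comp (Primrec.pair ht (Primrec.const true))
        (Primrec.const [])) (Primrec.list_append.comp (c2_rp_prim.comp (hc _) hd)
          (c2_rp_prim.comp (hc _) Primrec.snd))))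

theorem c2_xw_prim (k : ℕ) : Primrec fun p : (ℕ × ℕ) × (ℕ × ℕ) => xw k p.1 p.2 := by
  have hb : Primrec fun p : (ℕ × ℕ) × (ℕ × ℕ) => bw k p.1 := (c2_bw_prim k).comp Primrec.fst
  unfold xw
  exact Primrec.list_append.comp
    (c2_rp_prim.comp hb (Primrec.fst.comp Primrec.snd))
    (c2_rp_prim.comp (c2_inv_prim.comp hb) (Primrec.snd.comp Primrec.snd))

theorem c2_comp {α β : Type} [Primcodable α] [Primcodable β] {p : β → Prop} {f : α → β}
    (hp : ComputablePred p) (hf : Computable f) : ComputablePred fun x => p (f x) := by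
  obtain ⟨g, hg, rfl⟩ := ComputablePred.computable_iff.mp hp
  exact ComputablePred.computable_iff.mpr ⟨fun x => g (f x), hg.comp hf, rfl⟩

/-- bounded search for a pair -/
theorem c2_pair (hC : S_BS) {α : Type} [Primcodable α] (p : α × (ℕ × ℕ) → Prop) (B : α → ℕ)
    (hp : ComputablePred p) (hB : Computable B) :
    ComputablePred fun x => ∃ n m : ℕ, n ≤ B x ∧ m ≤ B x ∧ p (x, (n, m)) := by
  have h1 : ComputablePred fun x : (α × ℕ) × ℕ => p (x.1.1, (x.1.2, x.2)) :=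
    c2_comp hp (Primrec.pair (Primrec.fst.comp Primrec.fst)
      (Primrec.pair (Primrec.snd.comp Primrec.fst) Primrec.snd)).to_comp
  have h2 := hC (α × ℕ) inferInstance (fun x : (α × ℕ) × ℕ => p (x.1.1, (x.1.2, x.2)))
    (fun x => B x.1) h1 (hB.comp Computable.fst)
  have h3 := hC α inferInstance (fun x : α × ℕ => ∃ m, m ≤ B x.1 ∧ p (x.1, (x.2, m))) B h2 hB
  refine h3.of_eq fun x => ?_
  constructor
  · rintro ⟨n, hn, m, hm, h⟩
    exact ⟨n, m, hn, hm, h⟩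
  · rintro ⟨n, m, hn, hm, h⟩
    exact ⟨n, hn, m, hm, h⟩

/-- the word of the comparison -/
theorem c2_word_prim (k : ℕ) {α : Type} [Primcodable α] {J A S T : α → ℕ × ℕ} {Y : α → W ℕ}
    (hJ : Primrec J) (hA : Primrec A) (hS : Primrec S) (hT : Primrec T) (hY : Primrec Y) :
    Primrec fun x => Y x ++ inv (xw k (J x) (A x) ++ xw k (S x) (T x)) := by
  have h1 : Primrec fun x => xw k (J x) (A x) := (c2_xw_prim k).comp (Primrec.pair hJ hA)
  have h2 : Primrec fun x => xw k (S x) (T x) := (c2_xw_prim k).comp (Primrec.pair hS hT)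
  have h3 : Primrec fun x => xw k (J x) (A x) ++ xw k (S x) (T x) :=
    Primrec.list_append.comp h1 h2
  have h4 : Primrec fun x => inv (xw k (J x) (A x) ++ xw k (S x) (T x)) :=
    c2_inv_prim.comp h3
  exact Primrec.list_append.comp hY h4

/-- the data of the comparison -/
abbrev C2T : Type := ((((ℕ × ℕ) × W ℕ) × (ℕ × ℕ)) × (ℕ × ℕ)) × (ℕ × ℕ)

/-- the comparison -/
def c2q (k : ℕ) (x : C2T) : Prop :=
  evF k (x.1.1.1.2 ++ inv (xw k x.1.1.1.1 x.1.2 ++ xw k x.1.1.2 x.2)) = 1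

set_option maxHeartbeats 400000 in
theorem c2q_comp {k : ℕ} (hF : S_FR) (hk : 0 < k) : ComputablePred (c2q k) := by
  have p1 : Primrec fun x : C2T => x.1 := Primrec.fst
  have p2 : Primrec fun x : C2T => x.1.1 := Primrec.fst.comp p1
  have p3 : Primrec fun x : C2T => x.1.1.1 := Primrec.fst.comp p2
  have pJ : Primrec fun x : C2T => x.1.1.1.1 := Primrec.fst.comp p3
  have pY : Primrec fun x : C2T => x.1.1.1.2 := Primrec.snd.comp p3
  have pA : Primrec fun x : C2T => x.1.2 := Primrec.snd.comp p1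
  have pS : Primrec fun x : C2T => x.1.1.2 := Primrec.snd.comp p2
  have pT : Primrec fun x : C2T => x.2 := Primrec.snd
  have hw : Computable fun x : C2T =>
      x.1.1.1.2 ++ inv (xw k x.1.1.1.1 x.1.2 ++ xw k x.1.1.2 x.2) :=
    (c2_word_prim k pJ pA pS pT pY).to_comp
  have h : ComputablePred fun x : C2T =>
      evF k (x.1.1.1.2 ++ inv (xw k x.1.1.1.1 x.1.2 ++ xw k x.1.1.2 x.2)) = 1 :=
    c2_comp (p := fun y : W ℕ => evF k y = 1) (hF k hk) hw
  exact h

theorem c2q_iff {k : ℕ} (hX : S_XX) (hk : 0 < k) (x : (ℕ × ℕ) × W ℕ) (s a b : ℕ × ℕ) :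
    c2q k (((x, s), a), b) ↔
      evF k x.2 = xx k ((x.1.1 : ℤ) - (x.1.2 : ℤ)) ^ ((a.1 : ℤ) - (a.2 : ℤ)) *
        xx k ((s.1 : ℤ) - (s.2 : ℤ)) ^ ((b.1 : ℤ) - (b.2 : ℤ)) := by
  have h1 := c2_xw hX hk x.1 a
  have h2 := c2_xw hX hk s b
  have h3 : evF k (x.2 ++ inv (xw k x.1 a ++ xw k s b)) =
      evF k x.2 * (evF k (xw k x.1 a) * evF k (xw k s b))⁻¹ := by
    unfold evF
    rw [c2_ev_append, c2_ev_inv, c2_ev_append]
  show evF k (x.2 ++ inv (xw k x.1 a ++ xw k s b)) = 1 ↔ _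
  rw [h3, h1, h2, mul_inv_eq_one]

/-- the bound -/
def c2B (B : ℕ → ℕ) (p : (ℕ × ℕ) × W ℕ) : ℕ :=
  B (p.2.length + ((p.1.1 - p.1.2) + (p.1.2 - p.1.1)))

theorem c2B_comp {B : ℕ → ℕ} (hB : Computable B) : Computable (c2B B) := by
  refine hB.comp (Primrec.to_comp ?_)
  exact Primrec.nat_add.comp (Primrec.list_length.comp Primrec.snd)
    (Primrec.nat_add.comp
      (Primrec.nat_sub.comp (Primrec.fst.comp Primrec.fst) (Primrec.snd.comp Primrec.fst))
      (Primrec.nat_sub.comp (Primrec.snd.comp Primrec.fst) (Primrec.fst.comp Primrec.fst)))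

/-- the search -/
theorem c2_search (hC : S_BS) {α : Type} [Primcodable α]
    (q : ((α × (ℕ × ℕ)) × (ℕ × ℕ)) × (ℕ × ℕ) → Prop) (B : α → ℕ) (hq : ComputablePred q)
    (hB : Computable B) : ComputablePred fun x => ∃ s a b : ℕ × ℕ,
      (s.1 ≤ B x ∧ s.2 ≤ B x) ∧ (a.1 ≤ B x ∧ a.2 ≤ B x) ∧ (b.1 ≤ B x ∧ b.2 ≤ B x) ∧
        q (((x, s), a), b) := by
  have s1 := c2_pair hC q (fun x => B x.1.1) hq (hB.comp (Computable.fst.comp Computable.fst))
  have s2 := c2_pair hC _ (fun x : α × (ℕ × ℕ) => B x.1) s1 (hB.comp Computable.fst)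
  have s3 := c2_pair hC _ B s2 hB
  refine s3.of_eq fun x => ?_
  constructor
  · rintro ⟨n1, m1, h1, h2, n2, m2, h3, h4, n3, m3, h5, h6, h⟩
    exact ⟨(n1, m1), (n2, m2), (n3, m3), ⟨h1, h2⟩, ⟨h3, h4⟩, ⟨h5, h6⟩, h⟩
  · rintro ⟨⟨n1, m1⟩, ⟨n2, m2⟩, ⟨n3, m3⟩, ⟨h1, h2⟩, ⟨h3, h4⟩, ⟨h5, h6⟩, h⟩
    exact ⟨n1, m1, h1, h2, n2, m2, h3, h4, n3, m3, h5, h6, h⟩

theorem t_C2 (hB : S_BD) (hF : S_FR) (hX : S_XX) (hC : S_BS) : S_C2 := by
  intro k hk
  have hk0 : 0 < k := by omega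
  obtain ⟨B, hBc, -, hB2⟩ := hB k hk
  have s3 := c2_search hC (c2q k) (c2B B) (c2q_comp hF hk0) (c2B_comp hBc)
  refine s3.not.of_eq fun x => ?_
  constructor
  · intro h s a b hsab
    refine h ?_
    obtain ⟨s', a', b', hs', ha', hb', he⟩ := hB2 x.2 _ s a b hsab
    have hnat : ((x.1.1 : ℤ) - (x.1.2 : ℤ)).natAbs = (x.1.1 - x.1.2) + (x.1.2 - x.1.1) := by
      omega
    rw [hnat] at hs' ha' hb'
    have key : ∀ z : ℤ, |z| ≤ (c2B B x : ℤ) → z.toNat ≤ c2B B x ∧ (-z).toNat ≤ c2B B x := by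
      intro z hz
      have := abs_le.mp hz
      omega
    refine ⟨(s'.toNat, (-s').toNat), (a'.toNat, (-a').toNat), (b'.toNat, (-b').toNat),
      key s' hs', key a' ha', key b' hb', ?_⟩
    rw [c2q_iff hX hk0]
    simp only [Int.toNat_sub_toNat_neg]
    exact he
  · rintro h ⟨s, a, b, -, -, -, hh⟩
    rw [c2q_iff hX hk0] at hh
    exact h _ _ _ hh

end Pool.Agent.H75R6.EA
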